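import Pool.Agent.Y71.SA.Int

/-!
Project Y782-SA, job BASE
-/

set_option autoImplicit false

open MeasureTheory ProbabilityTheory Set Filter Topology
open scoped NNReal ENNReal

namespace Pool.Agent.Y71.SA

open Pool.Agent.Y782.SA

variable {E : Type} [NormedAddCommGroup E] [InnerProductSpace ℝ E]

theorem qf_matQ {κ : ℝ} {S : E →L[ℝ] E} {W : ℝ → E →L[ℝ] E} (hS : Sym S) (hW : GoodW W) {m : ℕ}
    {v : Fin m → ℝ → E} (hv : ∀ i, IsTest (v i)) (c : Fin m → ℝ) :
    qf (matQ κ S W v) c = form κ S W (∑ i, c i • v i) := by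
  rw [← bform_self]
  exact (bil_form κ hS hW).qf_eq hv c

theorem qf_matG {m : ℕ} {v : Fin m → ℝ → E} (hv : ∀ i, IsTest (v i)) (c : Fin m → ℝ) :
    qf (matG v) c = nsq (∑ i, c i • v i) := by
  rw [← gram_self]
  exact bil_gram.qf_eq hv c

theorem comb_comb {m k : ℕ} (v : Fin m → ℝ → E) (x : Fin (k + 1) → Fin m → ℝ)
    (c : Fin (k + 1) → ℝ) :
    ∑ j, (∑ i, c i • x i) j • v j = ∑ i, c i • ∑ j, x i j • v j := by
  have h1 : ∀ j, (∑ i, c i • x i) j • v j = ∑ i, c i • x i j • v j := by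
    intro j
    rw [Finset.sum_apply, Finset.sum_smul]
    exact Finset.sum_congr rfl fun i _ => by rw [Pi.smul_apply, smul_eq_mul, mul_smul]
  simp only [h1]
  rw [Finset.sum_comm]
  exact Finset.sum_congr rfl fun i _ => by rw [Finset.smul_sum]

theorem mmset_eq {κ : ℝ} {S : E →L[ℝ] E} {W : ℝ → E →L[ℝ] E} (hS : Sym S) (hW : GoodW W) {m : ℕ}
    {v : Fin m → ℝ → E} (hv : ∀ i, IsTest (v i)) (k : ℕ) :
    mmset (Submodule.span ℝ (Set.range v)) (form κ S W) nsq k =
      mmset ⊤ (qf (matQ κ S W v)) (qf (matG v)) k := by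
  ext s
  constructor
  · rintro ⟨φ, h1, h2⟩
    have h3 : ∀ i, ∃ x : Fin m → ℝ, ∑ j, x j • v j = φ i := fun i =>
      (Submodule.mem_span_range_iff_exists_fun ℝ).1 (h1 i)
    choose x hx using h3
    refine ⟨x, fun _ => Submodule.mem_top, fun c hc => ?_⟩
    rw [qf_matQ hS hW hv, qf_matG hv, comb_comb]
    simp only [hx]
    exact h2 c hc
  · rintro ⟨x, -, h2⟩
    refine ⟨fun i => ∑ j, x i j • v j, fun i =>
      (Submodule.mem_span_range_iff_exists_fun ℝ).2 ⟨x i, rfl⟩, fun c hc => ?_⟩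
    have h3 := h2 c hc
    rw [qf_matQ hS hW hv, qf_matG hv, comb_comb] at h3
    exact h3

/-- BASE -/
theorem base : S_BASE := by
  intro E _ _ _ κ S W hS hW m v hv
  refine ⟨(bil_form κ hS hW).isSymm v, bil_gram.isSymm v, qf_matQ hS hW hv, qf_matG hv,
    fun hs => ⟨?_, fun k => ?_⟩⟩
  · refine Matrix.PosDef.of_dotProduct_mulVec_pos ?_ fun {c} hc => ?_
    · have h1 : (matG v).IsSymm := bil_gram.isSymm v
      rw [Matrix.IsHermitian, Matrix.conjTranspose_eq_transpose_of_trivial]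
      exact h1
    · have h2 : (0 : ℝ) < qf (matG v) c := by
        rw [qf_matG hv]
        exact hs.pos c hc
      rw [star_trivial]
      exact h2
  · unfold lam
    rw [mmset_eq hS hW hv]

end Pool.Agent.Y71.SA
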