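import Mathlib

/-!
Project Y782-SA, job FM, abstract part: forms on vector spaces over division algebras
-/

set_option autoImplicit false

open Module

namespace Pool.Agent.Y71.SA.FM

section abs

variable {D V : Type} [DivisionRing D] [Module ℝ D] [AddCommGroup V] [Module ℝ V]
  [Module D V] [IsScalarTower ℝ D V]

/-- if a form is nonpositive on a real space of dimension more than `dim D * k`, it is nonpositive
on a `D`-space of dimension more than `k` -/
theorem lemA0 (B : V →ₗ[ℝ] V →ₗ[ℝ] ℝ) (x y : V) :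
    B (x + y) (x + y) = B x x + B x y + (B y x + B y y) := by
  rw [B.map_add, LinearMap.add_apply, (B x).map_add, (B y).map_add]

theorem lemA [Module.Finite ℝ V] (B : V →ₗ[ℝ] V →ₗ[ℝ] ℝ) (hs : ∀ x y, B x y = B y x) (N : D → ℝ)
    (hN : ∀ c x y, B (c • x) (c • y) = N c * B x y) (hN0 : ∀ c, c ≠ 0 → 0 < N c)
    (R : Submodule ℝ V) (hR : ∀ x ∈ R, B x x ≤ 0) (k : ℕ)
    (hk : finrank ℝ D * k < finrank ℝ R) :
    ∃ Z : Submodule D V, (∀ z ∈ Z, B z z ≤ 0) ∧ k < finrank D Z := by
  classical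
  have : Module.Finite D V := Module.Finite.of_restrictScalars_finite ℝ D V
  let S : Set ℕ := {n | ∃ P : Submodule D V, (∀ p ∈ P, p ≠ 0 → 0 < B p p) ∧ finrank D P = n}
  have hS0 : S.Nonempty := ⟨_, ⊥, fun p hp h => absurd ((Submodule.mem_bot D).1 hp) h, rfl⟩
  have hSb : BddAbove S := ⟨finrank D V, by
    rintro n ⟨P, -, rfl⟩
    exact Submodule.finrank_le P⟩
  obtain ⟨P, hP, hPn⟩ := Nat.sSup_mem hS0 hSb
  have hmax : ∀ Q : Submodule D V, (∀ p ∈ Q, p ≠ 0 → 0 < B p p) → finrank D Q ≤ finrank D P := by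
    intro Q hQ
    rw [hPn]
    exact le_csSup hSb ⟨Q, hQ, rfl⟩
  let Z : Submodule D V :=
    { carrier := {z | ∀ p ∈ P, B p z = 0}
      add_mem' := fun {a b} ha hb p hp => by
        rw [map_add, ha p hp, hb p hp, add_zero]
      zero_mem' := fun p _ => map_zero _
      smul_mem' := fun c z hz p hp => by
        by_cases hc : c = 0
        · rw [hc, zero_smul, map_zero]
        · have h1 := hN c (c⁻¹ • p) z
          rw [smul_inv_smul₀ hc, hz _ (P.smul_mem _ hp), mul_zero] at h1
          exact h1 }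
  have hZmem : ∀ z, z ∈ Z ↔ ∀ p ∈ P, B p z = 0 := fun z => Iff.rfl
  have hZ : ∀ z ∈ Z, B z z ≤ 0 := by
    intro z hz
    by_contra hpos
    push Not at hpos
    have hzP : z ∉ P := fun h => by
      have := hz z h
      linarith
    have hlt : P < P ⊔ Submodule.span D {z} := by
      refine lt_of_le_of_ne le_sup_left fun h => hzP ?_
      rw [h]
      exact Submodule.mem_sup_right (Submodule.mem_span_singleton_self z)
    have h1 := Submodule.finrank_lt_finrank_of_lt hlt
    have h2 := hmax (P ⊔ Submodule.span D {z}) ?_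
    · omega
    · intro q hq hq0
      obtain ⟨p, hp, w, hw, rfl⟩ := Submodule.mem_sup.1 hq
      obtain ⟨c, rfl⟩ := Submodule.mem_span_singleton.1 hw
      have h3 : B p (c • z) = 0 := (Z.smul_mem c hz) p hp
      have h4 : B (c • z) p = 0 := by rw [hs, h3]
      rw [lemA0, h3, h4, hN]
      by_cases hc : c = 0
      · have hp0 : p ≠ 0 := fun h => hq0 (by rw [h, hc, zero_smul, add_zero])
        have h5 := hP p hp hp0
        have h6 : N c * B z z = 0 := by
          rw [← hN, hc, zero_smul, map_zero]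
        linarith
      · have h5 : 0 ≤ B p p := by
          by_cases hp0 : p = 0
          · rw [hp0, map_zero]
          · exact (hP p hp hp0).le
        have h6 := mul_pos (hN0 c hc) hpos
        linarith
  refine ⟨Z, hZ, ?_⟩
  let Pr : Submodule ℝ V := P.restrictScalars ℝ
  have hPr : ∀ x, x ∈ Pr ↔ x ∈ P := fun x => Iff.rfl
  let φ : V →ₗ[ℝ] Dual ℝ Pr := Pr.subtype.dualMap ∘ₗ B.flip
  have hφ : LinearMap.ker φ = Z.restrictScalars ℝ := by
    ext u
    rw [LinearMap.mem_ker]
    constructor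
    · intro h p hp
      have h1 := congrArg (fun l : Dual ℝ Pr => l ⟨p, hp⟩) h
      exact h1
    · intro h
      refine LinearMap.ext fun p => ?_
      exact h p.1 p.2
  have h1 := LinearMap.finrank_range_add_finrank_ker φ
  have h2 : finrank ℝ (LinearMap.range φ) ≤ finrank ℝ Pr := by
    refine (Submodule.finrank_le _).trans ?_
    rw [Subspace.dual_finrank_eq]
  have h3 : Disjoint R Pr := by
    rw [Submodule.disjoint_def]
    intro x hx hx'
    by_contra h0
    have h4 := hP x hx' h0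
    have h5 := hR x hx
    linarith
  have h4 := Submodule.finrank_add_finrank_le_of_disjoint h3
  rw [hφ] at h1
  have h5 : finrank ℝ (Z.restrictScalars ℝ) = finrank ℝ D * finrank D Z :=
    (Module.finrank_mul_finrank ℝ D Z).symm
  rw [h5] at h1
  by_contra h6
  push Not at h6
  have h7 := Nat.mul_le_mul_left (finrank ℝ D) h6
  omega

theorem lemB [Module.Finite ℝ D] (B : V →ₗ[ℝ] V →ₗ[ℝ] ℝ) (hs : ∀ x y, B x y = B y x) (N : D → ℝ)
    (hN : ∀ c x y, B (c • x) (c • y) = N c * B x y) (hN0 : ∀ c, c ≠ 0 → 0 < N c)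
    (K : Submodule D V) (hK : ∀ x ∈ K, ∀ y, B x y = 0) (m k : ℕ) (hm : finrank ℝ D * k < m)
    (ψ : Fin m → V)
    (hψ : ∀ c : Fin m → ℝ, c ≠ 0 → ∑ i, c i • ψ i ∉ K ∧
      B (∑ i, c i • ψ i) (∑ i, c i • ψ i) ≤ 0) :
    ∃ φ : Fin (k + 1) → V, ∀ c : Fin (k + 1) → D, c ≠ 0 → ∑ i, c i • φ i ∉ K ∧
      B (∑ i, c i • φ i) (∑ i, c i • φ i) ≤ 0 := by
  classical
  obtain ⟨K', hc⟩ := K.exists_isCompl
  let π : V →ₗ[D] V := K'.projection K hc.symm
  have hπK' : ∀ x, π x ∈ K' := fun x => Submodule.projection_apply_mem hc.symm x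
  have hπ0 : ∀ x, π x = 0 ↔ x ∈ K := fun x => Submodule.projection_apply_eq_zero_iff hc.symm
  have hππ : ∀ x, x - π x ∈ K := fun x => by
    rw [← hπ0, map_sub, sub_eq_zero]
    exact (Submodule.projection_apply_of_mem_left hc.symm (hπK' x)).symm
  have hBπ : ∀ x, B (π x) (π x) = B x x := by
    intro x
    have h1 := hK _ (hππ x)
    have h2 : x = (x - π x) + π x := by abel
    have h3 : B x x = B (π x) (π x) := by
      conv_lhs => rw [h2]
      rw [lemA0, h1, h1, hs (π x) (x - π x), h1]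
      ring
    exact h3.symm
  let U : Submodule D V := Submodule.span D (Set.range fun i => π (ψ i))
  have hUK' : U ≤ K' := by
    refine Submodule.span_le.2 ?_
    rintro _ ⟨i, rfl⟩
    exact hπK' _
  have : Module.Finite D U := FiniteDimensional.span_of_finite D (Set.finite_range _)
  have : Module.Finite ℝ U := Module.Finite.trans D U
  let ι : U →ₗ[ℝ] V := U.subtype.restrictScalars ℝ
  have hι : ∀ u, ι u = (u : V) := fun _ => rfl
  let B' : U →ₗ[ℝ] U →ₗ[ℝ] ℝ := B.compl₁₂ ι ι
  have hB' : ∀ u v, B' u v = B (u : V) (v : V) := fun _ _ => rfl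
  let ψ' : Fin m → U := fun i => ⟨π (ψ i), Submodule.subset_span ⟨i, rfl⟩⟩
  have hcomb : ∀ c : Fin m → ℝ, ((∑ i, c i • ψ' i : U) : V) = π (∑ i, c i • ψ i) := by
    intro c
    rw [← hι, map_sum, map_sum]
    refine Finset.sum_congr rfl fun i _ => ?_
    rw [map_smul, LinearMap.map_smul_of_tower]
    rfl
  have hli : LinearIndependent ℝ ψ' := by
    rw [Fintype.linearIndependent_iff]
    intro c h
    have h1 : c = 0 := by
      by_contra h0
      apply (hψ c h0).1
      rw [← hπ0, ← hcomb, h]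
      rfl
    intro i
    rw [h1]
    rfl
  obtain ⟨Z, hZ, hkZ⟩ := lemA B' (fun x y => by rw [hB', hB', hs]) N
    (fun c x y => by rw [hB', hB', ← hN]; rfl) hN0 (Submodule.span ℝ (Set.range ψ'))
    (fun x hx => by
      obtain ⟨c, rfl⟩ := (Submodule.mem_span_range_iff_exists_fun ℝ).1 hx
      rw [hB', hcomb, hBπ]
      by_cases h0 : c = 0
      · rw [h0]
        simp
      · exact (hψ c h0).2) k (by
      rw [finrank_span_eq_card hli, Fintype.card_fin]
      exact hm)
  have : Module.Finite D Z := inferInstance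
  let b := Module.finBasis D Z
  refine ⟨fun i => ((b (Fin.castLE hkZ i) : Z) : U), fun c hc0 => ?_⟩
  have h1 : ∑ i, c i • (((b (Fin.castLE hkZ i) : Z) : U) : V) =
      (((∑ i, c i • b (Fin.castLE hkZ i) : Z) : U) : V) := by
    push_cast
    rfl
  rw [h1]
  have h2 : (∑ i, c i • b (Fin.castLE hkZ i) : Z) ≠ 0 := by
    intro h
    have h3 := b.linearIndependent.comp (Fin.castLE hkZ) (Fin.castLE_injective _)
    rw [Fintype.linearIndependent_iff] at h3
    exact hc0 (funext fun i => h3 c h i)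
  refine ⟨fun h3 => h2 ?_, ?_⟩
  · have h4 := Submodule.disjoint_def.1 hc.disjoint _ h3
      (hUK' (((∑ i, c i • b (Fin.castLE hkZ i) : Z) : U)).2)
    exact Subtype.ext (Subtype.ext h4)
  · rw [← hB']
    exact hZ _ (∑ i, c i • b (Fin.castLE hkZ i) : Z).2

end abs

end Pool.Agent.Y71.SA.FM
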