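import Pool.Agent.Y782.SA.Stm

/-!
Project Y782-SA: basic facts on test functions, integrability, bilinearity
-/

set_option autoImplicit false

open MeasureTheory ProbabilityTheory Set Filter Topology
open scoped NNReal ENNReal

namespace Pool.Agent.Y71.SA

open Pool.Agent.Y782.SA

variable {E : Type} [NormedAddCommGroup E] [InnerProductSpace ℝ E]

section basic

variable {f g : ℝ → E}

theorem t_cont (hf : IsTest f) : Continuous f := hf.1.continuous

theorem t_dcont (hf : IsTest f) : Continuous (deriv f) := hf.1.continuous_deriv_one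

theorem t_diff (hf : IsTest f) : Differentiable ℝ f := hf.1.differentiable one_ne_zero

theorem t_dcs (hf : IsTest f) : HasCompactSupport (deriv f) := hf.2.deriv

theorem t_has (hf : IsTest f) (x : ℝ) : HasDerivAt f (deriv f x) x := (t_diff hf x).hasDerivAt

/-- a test function vanishes together with its derivative on some `[R, ∞)` -/
theorem t_zero (hf : IsTest f) : ∃ R : ℝ, 0 < R ∧ ∀ x, R ≤ x → f x = 0 ∧ deriv f x = 0 := by
  obtain ⟨R, hR⟩ := hf.2.isCompact.isBounded.subset_closedBall (0 : ℝ)
  have h1 : ∀ x, R < x → x ∉ tsupport f := by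
    intro x hx h
    have h2 := hR h
    rw [Metric.mem_closedBall, Real.dist_eq, sub_zero] at h2
    exact absurd (le_abs_self x) (by linarith)
  refine ⟨max R 0 + 1, by positivity, fun x hx => ?_⟩
  have hx' : R < x := by
    have := le_max_left R 0
    linarith
  refine ⟨image_eq_zero_of_notMem_tsupport (h1 x hx'), ?_⟩
  exact image_eq_zero_of_notMem_tsupport fun h => h1 x hx' (tsupport_deriv_subset h)

/-- integrability criterion on `(0, ∞)` -/
theorem intOn {G : ℝ → ℝ} {K B : ℝ} (hm : AEStronglyMeasurable G (volume.restrict (Ioi 0)))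
    (hz : ∀ x, K ≤ x → G x = 0) (hb : ∀ x, 0 ≤ x → x ≤ K → |G x| ≤ B) :
    IntegrableOn G (Ioi 0) := by
  have h1 : IntegrableOn G (Ioc 0 K) := by
    refine Integrable.of_bound
      (hm.mono_measure (Measure.restrict_mono Ioc_subset_Ioi_self le_rfl)) B ?_
    rw [ae_restrict_iff' measurableSet_Ioc]
    exact Eventually.of_forall fun x hx => by
      rw [Real.norm_eq_abs]
      exact hb x hx.1.le hx.2
  have h2 : IntegrableOn G (Ioi K) := by
    refine IntegrableOn.congr_fun integrableOn_zero (fun x hx => ?_) measurableSet_Ioi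
    exact (hz x (le_of_lt hx)).symm
  refine (h1.union h2).mono_set fun x hx => ?_
  rcases le_or_gt x K with h | h
  · exact Or.inl ⟨hx, h⟩
  · exact Or.inr h

theorem int_gram (hf : IsTest f) (hg : IsTest g) :
    IntegrableOn (fun x => inner ℝ (f x) (g x)) (Ioi 0) := by
  refine Integrable.integrableOn (Continuous.integrable_of_hasCompactSupport
    ((t_cont hf).inner (t_cont hg)) ?_)
  refine hf.2.mono fun x hx => ?_
  rw [Function.mem_support] at hx ⊢
  intro h
  exact hx (by rw [h, inner_zero_left])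

theorem int_dd (hf : IsTest f) (hg : IsTest g) :
    IntegrableOn (fun x => inner ℝ (deriv f x) (deriv g x)) (Ioi 0) := by
  refine Integrable.integrableOn (Continuous.integrable_of_hasCompactSupport
    ((t_dcont hf).inner (t_dcont hg)) ?_)
  refine (t_dcs hf).mono fun x hx => ?_
  rw [Function.mem_support] at hx ⊢
  intro h
  exact hx (by rw [h, inner_zero_left])

theorem int_fd (hf : IsTest f) (hg : IsTest g) :
    IntegrableOn (fun x => inner ℝ (f x) (deriv g x)) (Ioi 0) := by
  refine Integrable.integrableOn (Continuous.integrable_of_hasCompactSupport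
    ((t_cont hf).inner (t_dcont hg)) ?_)
  refine hf.2.mono fun x hx => ?_
  rw [Function.mem_support] at hx ⊢
  intro h
  exact hx (by rw [h, inner_zero_left])

theorem int_x (hf : IsTest f) (hg : IsTest g) :
    IntegrableOn (fun x : ℝ => x * inner ℝ (f x) (g x)) (Ioi 0) := by
  refine Integrable.integrableOn (Continuous.integrable_of_hasCompactSupport
    (continuous_id.mul ((t_cont hf).inner (t_cont hg))) ?_)
  refine hf.2.mono fun x hx => ?_
  rw [Function.mem_support] at hx ⊢
  intro h
  exact hx (by rw [h, inner_zero_left, mul_zero])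

theorem int_nsq (hf : IsTest f) : IntegrableOn (fun x => ‖f x‖ ^ 2) (Ioi 0) := by
  have h := int_gram hf hf
  simpa only [real_inner_self_eq_norm_sq] using h

theorem int_dsq (hf : IsTest f) : IntegrableOn (fun x => ‖deriv f x‖ ^ 2) (Ioi 0) := by
  have h := int_dd hf hf
  simpa only [real_inner_self_eq_norm_sq] using h

theorem int_xsq (hf : IsTest f) : IntegrableOn (fun x : ℝ => x * ‖f x‖ ^ 2) (Ioi 0) := by
  have h := int_x hf hf
  simpa only [real_inner_self_eq_norm_sq] using h

/-- strong measurability of `W x (g x)` -/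
theorem sm_apply {W : ℝ → E →L[ℝ] E} (hW : StronglyMeasurable W) (hg : Continuous g) :
    StronglyMeasurable fun x => W x (g x) := by
  have h1 : StronglyMeasurable fun x => (W x, g x) :=
    hW.prodMk hg.stronglyMeasurable
  exact (isBoundedBilinearMap_apply (𝕜 := ℝ) (E := E) (F := E)).continuous.comp_stronglyMeasurable
    h1

/-- integrability of `⟨f', W g⟩` for a measurable locally bounded path -/
theorem int_W' {W : ℝ → E →L[ℝ] E} (hW : StronglyMeasurable W)
    (hB : ∀ L : ℝ, ∃ B : ℝ, ∀ x ∈ Icc 0 L, ‖W x‖ ≤ B) (hf : IsTest f) (hg : IsTest g) :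
    IntegrableOn (fun x => inner ℝ (deriv f x) (W x (g x))) (Ioi 0) := by
  obtain ⟨R, hR0, hR⟩ := t_zero hf
  obtain ⟨B, hB⟩ := hB R
  obtain ⟨C1, hC1⟩ := (t_dcs hf).exists_bound_of_continuous (t_dcont hf)
  obtain ⟨C2, hC2⟩ := hg.2.exists_bound_of_continuous (t_cont hg)
  refine intOn (K := R) (B := C1 * (B * C2)) ?_ ?_ ?_
  · exact ((t_dcont hf).stronglyMeasurable.inner (sm_apply hW (t_cont hg))).aestronglyMeasurable
  · intro x hx
    rw [(hR x hx).2, inner_zero_left]
  · intro x hx hx'
    have h1 := hC1 x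
    have h2 := hC2 x
    have h3 := hB x ⟨hx, hx'⟩
    have h4 : 0 ≤ B := (norm_nonneg _).trans h3
    have h5 : 0 ≤ C1 := (norm_nonneg _).trans h1
    calc |inner ℝ (deriv f x) (W x (g x))| ≤ ‖deriv f x‖ * ‖W x (g x)‖ := abs_real_inner_le_norm _ _
      _ ≤ C1 * (B * C2) := by
        refine mul_le_mul h1 ?_ (norm_nonneg _) h5
        exact ((W x).le_opNorm _).trans (mul_le_mul h3 h2 (norm_nonneg _) h4)

theorem int_W {W : ℝ → E →L[ℝ] E} (hW : GoodW W) (hf : IsTest f) (hg : IsTest g) :
    IntegrableOn (fun x => inner ℝ (deriv f x) (W x (g x))) (Ioi 0) :=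
  int_W' hW.meas hW.bdd hf hg

theorem t_add (hf : IsTest f) (hg : IsTest g) : IsTest (f + g) := (tst E).add_mem hf hg

theorem t_smul (c : ℝ) (hf : IsTest f) : IsTest (c • f) := (tst E).smul_mem c hf

theorem t_zero' : IsTest (0 : ℝ → E) := (tst E).zero_mem

theorem t_sum {ι : Type*} (s : Finset ι) {v : ι → ℝ → E} (hv : ∀ i ∈ s, IsTest (v i)) :
    IsTest (∑ i ∈ s, v i) := (tst E).sum_mem hv

theorem t_comb {ι : Type*} [Fintype ι] {v : ι → ℝ → E} (hv : ∀ i, IsTest (v i)) (c : ι → ℝ) :
    IsTest (∑ i, c i • v i) := t_sum _ fun i _ => t_smul _ (hv i)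

theorem d_add (hf : IsTest f) (hg : IsTest g) (x : ℝ) :
    deriv (f + g) x = deriv f x + deriv g x := ((t_has hf x).add (t_has hg x)).deriv

theorem d_smul (c : ℝ) (hf : IsTest f) (x : ℝ) : deriv (c • f) x = c • deriv f x :=
  ((t_has hf x).const_smul c).deriv

theorem d_zero (x : ℝ) : deriv (0 : ℝ → E) x = 0 := by
  show deriv (fun _ => (0 : E)) x = 0
  exact deriv_const _ _

end basic

/-! ### bilinearity -/

/-- a symmetric bilinear form on the space of test functions -/
structure Bil (b : (ℝ → E) → (ℝ → E) → ℝ) : Prop where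
  symm : ∀ f g, b f g = b g f
  add : ∀ f g h, IsTest f → IsTest g → IsTest h → b (f + g) h = b f h + b g h
  smul : ∀ (c : ℝ) f g, IsTest f → IsTest g → b (c • f) g = c * b f g

namespace Bil

variable {b : (ℝ → E) → (ℝ → E) → ℝ}

theorem zero (hb : Bil b) {g : ℝ → E} (hg : IsTest g) : b 0 g = 0 := by
  have h := hb.smul 0 0 g t_zero' hg
  rwa [zero_smul, zero_mul] at h

theorem sum (hb : Bil b) {ι : Type*} (s : Finset ι) {v : ι → ℝ → E} (hv : ∀ i, IsTest (v i))
    {g : ℝ → E} (hg : IsTest g) : b (∑ i ∈ s, v i) g = ∑ i ∈ s, b (v i) g := by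
  classical
  induction s using Finset.induction_on with
  | empty => rw [Finset.sum_empty, Finset.sum_empty, hb.zero hg]
  | insert a s ha ih =>
    rw [Finset.sum_insert ha, Finset.sum_insert ha, hb.add _ _ _ (hv a)
      (t_sum s fun i _ => hv i) hg, ih]

theorem comb (hb : Bil b) {ι : Type*} [Fintype ι] {v : ι → ℝ → E} (hv : ∀ i, IsTest (v i))
    (c : ι → ℝ) {g : ℝ → E} (hg : IsTest g) : b (∑ i, c i • v i) g = ∑ i, c i * b (v i) g := by
  rw [hb.sum _ (fun i => t_smul _ (hv i)) hg]
  exact Finset.sum_congr rfl fun i _ => hb.smul _ _ _ (hv i) hg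

theorem add_right (hb : Bil b) {f g h : ℝ → E} (hf : IsTest f) (hg : IsTest g) (hh : IsTest h) :
    b h (f + g) = b h f + b h g := by
  rw [hb.symm, hb.add _ _ _ hf hg hh, hb.symm f, hb.symm g]

theorem smul_right (hb : Bil b) (c : ℝ) {f g : ℝ → E} (hf : IsTest f) (hg : IsTest g) :
    b g (c • f) = c * b g f := by
  rw [hb.symm, hb.smul _ _ _ hf hg, hb.symm f]

/-- the quadratic form of the matrix of a bilinear form -/
theorem qf_eq (hb : Bil b) {m : ℕ} {v : Fin m → ℝ → E} (hv : ∀ i, IsTest (v i)) (c : Fin m → ℝ) :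
    qf (Matrix.of fun i j => b (v i) (v j)) c = b (∑ i, c i • v i) (∑ i, c i • v i) := by
  rw [hb.comb hv c (t_comb hv c)]
  unfold qf dotProduct Matrix.mulVec dotProduct
  refine Finset.sum_congr rfl fun i _ => ?_
  rw [hb.symm (v i), hb.comb hv c (hv i)]
  congr 1
  refine Finset.sum_congr rfl fun j _ => ?_
  show b (v i) (v j) * c j = _
  rw [hb.symm (v j), mul_comm]

theorem isSymm (hb : Bil b) {m : ℕ} (v : Fin m → ℝ → E) :
    (Matrix.of fun i j => b (v i) (v j)).IsSymm := by
  ext i j
  rw [Matrix.transpose_apply, Matrix.of_apply, Matrix.of_apply, hb.symm]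

end Bil

theorem bil_gram : Bil (E := E) gram where
  symm f g := by
    unfold gram
    exact integral_congr_ae (Eventually.of_forall fun x => real_inner_comm _ _)
  add f g h hf hg hh := by
    unfold gram
    rw [← integral_add (int_gram hf hh) (int_gram hg hh)]
    refine integral_congr_ae (Eventually.of_forall fun x => ?_)
    show inner ℝ (f x + g x) (h x) = _
    rw [inner_add_left]
  smul c f g hf hg := by
    unfold gram
    rw [← integral_const_mul]
    refine integral_congr_ae (Eventually.of_forall fun x => ?_)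
    show inner ℝ (c • f x) (g x) = _
    rw [real_inner_smul_left]

theorem bil_dd : Bil (E := E) fun f g => ∫ x in Ioi (0 : ℝ), inner ℝ (deriv f x) (deriv g x) where
  symm f g := integral_congr_ae (Eventually.of_forall fun x => real_inner_comm _ _)
  add f g h hf hg hh := by
    rw [← integral_add (int_dd hf hh) (int_dd hg hh)]
    refine integral_congr_ae (Eventually.of_forall fun x => ?_)
    show inner ℝ (deriv (f + g) x) (deriv h x) = _
    rw [d_add hf hg, inner_add_left]
  smul c f g hf hg := by
    rw [← integral_const_mul]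
    refine integral_congr_ae (Eventually.of_forall fun x => ?_)
    show inner ℝ (deriv (c • f) x) (deriv g x) = _
    rw [d_smul c hf, real_inner_smul_left]

theorem bil_x : Bil (E := E) fun f g => ∫ x in Ioi (0 : ℝ), x * inner ℝ (f x) (g x) where
  symm f g := integral_congr_ae (Eventually.of_forall fun x => by
    show x * inner ℝ (f x) (g x) = x * inner ℝ (g x) (f x)
    rw [real_inner_comm])
  add f g h hf hg hh := by
    rw [← integral_add (int_x hf hh) (int_x hg hh)]
    refine integral_congr_ae (Eventually.of_forall fun x => ?_)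
    show x * inner ℝ (f x + g x) (h x) = _
    rw [inner_add_left, mul_add]
  smul c f g hf hg := by
    rw [← integral_const_mul]
    refine integral_congr_ae (Eventually.of_forall fun x => ?_)
    show x * inner ℝ (c • f x) (g x) = _
    rw [real_inner_smul_left]
    ring

theorem bil_S {S : E →L[ℝ] E} (hS : Sym S) : Bil (E := E) fun f g => inner ℝ (S (f 0)) (g 0) where
  symm f g := by
    show inner ℝ (S (f 0)) (g 0) = inner ℝ (S (g 0)) (f 0)
    rw [hS, real_inner_comm]
  add f g h hf hg hh := by
    show inner ℝ (S (f 0 + g 0)) (h 0) = _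
    rw [map_add, inner_add_left]
  smul c f g hf hg := by
    show inner ℝ (S (c • f 0)) (g 0) = _
    rw [map_smul, real_inner_smul_left]

theorem bil_W {W : ℝ → E →L[ℝ] E} (hW : StronglyMeasurable W)
    (hB : ∀ L : ℝ, ∃ B : ℝ, ∀ x ∈ Icc 0 L, ‖W x‖ ≤ B) :
    Bil (E := E) fun f g => ∫ x in Ioi (0 : ℝ),
      (inner ℝ (deriv f x) (W x (g x)) + inner ℝ (deriv g x) (W x (f x))) where
  symm f g := integral_congr_ae (Eventually.of_forall fun x => add_comm _ _)
  add f g h hf hg hh := by
    have hi1 : IntegrableOn (fun x => inner ℝ (deriv f x) (W x (h x)) +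
        inner ℝ (deriv h x) (W x (f x))) (Ioi 0) := (int_W' hW hB hf hh).add (int_W' hW hB hh hf)
    have hi2 : IntegrableOn (fun x => inner ℝ (deriv g x) (W x (h x)) +
        inner ℝ (deriv h x) (W x (g x))) (Ioi 0) := (int_W' hW hB hg hh).add (int_W' hW hB hh hg)
    rw [← integral_add hi1 hi2]
    refine integral_congr_ae (Eventually.of_forall fun x => ?_)
    show inner ℝ (deriv (f + g) x) (W x (h x)) + inner ℝ (deriv h x) (W x (f x + g x)) =
      (inner ℝ (deriv f x) (W x (h x)) + inner ℝ (deriv h x) (W x (f x))) +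
        (inner ℝ (deriv g x) (W x (h x)) + inner ℝ (deriv h x) (W x (g x)))
    rw [d_add hf hg, inner_add_left, map_add, inner_add_right]
    ring
  smul c f g hf hg := by
    rw [← integral_const_mul]
    refine integral_congr_ae (Eventually.of_forall fun x => ?_)
    show inner ℝ (deriv (c • f) x) (W x (g x)) + inner ℝ (deriv g x) (W x (c • f x)) =
      c * (inner ℝ (deriv f x) (W x (g x)) + inner ℝ (deriv g x) (W x (f x)))
    rw [d_smul c hf, real_inner_smul_left, map_smul, real_inner_smul_right]
    ring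

theorem bil_form (κ : ℝ) {S : E →L[ℝ] E} {W : ℝ → E →L[ℝ] E} (hS : Sym S) (hW : GoodW W) :
    Bil (bform κ S W) where
  symm f g := by
    unfold bform
    have h1 := bil_dd.symm f g
    have h2 := bil_x.symm f g
    have h3 := (bil_S hS).symm f g
    have h4 := (bil_W hW.meas hW.bdd).symm f g
    beta_reduce at h1 h2 h3 h4
    rw [h1, h2, h3, h4]
  add f g h hf hg hh := by
    unfold bform
    have h1 := bil_dd.add f g h hf hg hh
    have h2 := bil_x.add f g h hf hg hh
    have h3 := (bil_S hS).add f g h hf hg hh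
    have h4 := (bil_W hW.meas hW.bdd).add f g h hf hg hh
    beta_reduce at h1 h2 h3 h4
    rw [h1, h2, h3, h4]
    ring
  smul c f g hf hg := by
    unfold bform
    have h1 := bil_dd.smul c f g hf hg
    have h2 := bil_x.smul c f g hf hg
    have h3 := (bil_S hS).smul c f g hf hg
    have h4 := (bil_W hW.meas hW.bdd).smul c f g hf hg
    beta_reduce at h1 h2 h3 h4
    rw [h1, h2, h3, h4]
    ring

theorem gram_self (f : ℝ → E) : gram f f = nsq f := by
  unfold gram nsq
  exact integral_congr_ae (Eventually.of_forall fun x => real_inner_self_eq_norm_sq _)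

theorem bform_self (κ : ℝ) (S : E →L[ℝ] E) (W : ℝ → E →L[ℝ] E) (f : ℝ → E) :
    bform κ S W f f = form κ S W f := by
  unfold bform form dsq xsq
  have h1 : ∫ x in Ioi (0 : ℝ), inner ℝ (deriv f x) (deriv f x) =
      ∫ x in Ioi (0 : ℝ), ‖deriv f x‖ ^ 2 :=
    integral_congr_ae (Eventually.of_forall fun x => real_inner_self_eq_norm_sq _)
  have h2 : ∫ x in Ioi (0 : ℝ), x * inner ℝ (f x) (f x) = ∫ x in Ioi (0 : ℝ), x * ‖f x‖ ^ 2 :=
    integral_congr_ae (Eventually.of_forall fun x => by
      show x * inner ℝ (f x) (f x) = x * ‖f x‖ ^ 2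
      rw [real_inner_self_eq_norm_sq])
  have h3 : ∫ x in Ioi (0 : ℝ), (inner ℝ (deriv f x) (W x (f x)) +
      inner ℝ (deriv f x) (W x (f x))) = ∫ x in Ioi (0 : ℝ), 2 * inner ℝ (deriv f x) (W x (f x)) :=
    integral_congr_ae (Eventually.of_forall fun x => (two_mul _).symm)
  rw [h1, h2, h3, integral_const_mul]

end Pool.Agent.Y71.SA
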