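import Pool.Agent.Y782.SA.FDefs
import Pool.Agent.Y71.SA.Int
import Pool.Agent.Y71.SA.FmA

/-!
Project Y782-SA, job FM: min-max values over `F` and over the real numbers
-/

set_option autoImplicit false
set_option linter.unusedSectionVars false
set_option linter.unusedVariables false

open MeasureTheory ProbabilityTheory Set Filter Topology Module
open scoped NNReal ENNReal

namespace Pool.Agent.Y71.SA.FM

open Pool.Agent.Y782.SA Pool.Agent.Y71.SA

section real

variable {E : Type} [NormedAddCommGroup E] [InnerProductSpace ℝ E]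

theorem nsq_nonneg (f : ℝ → E) : 0 ≤ nsq f :=
  integral_nonneg fun _ => sq_nonneg _

theorem dsq_nonneg (f : ℝ → E) : 0 ≤ dsq f :=
  integral_nonneg fun _ => sq_nonneg _

theorem xsq_nonneg (f : ℝ → E) : 0 ≤ xsq f :=
  setIntegral_nonneg measurableSet_Ioi fun x hx => mul_nonneg (le_of_lt hx) (sq_nonneg _)

/-- vanishing on `[0, ∞)` -/
def Van (f : ℝ → E) : Prop := ∀ x : ℝ, 0 ≤ x → f x = 0

theorem van_nsq {f : ℝ → E} (hf : Van f) : nsq f = 0 := by
  unfold nsq
  refine setIntegral_eq_zero_of_forall_eq_zero fun x hx => ?_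
  rw [hf x (le_of_lt hx), norm_zero, zero_pow two_ne_zero]

theorem van_deriv {f : ℝ → E} (hf : Van f) {x : ℝ} (hx : 0 < x) : deriv f x = 0 := by
  have h1 : f =ᶠ[𝓝 x] fun _ => (0 : E) := by
    filter_upwards [lt_mem_nhds hx] with y hy
    exact hf y (le_of_lt hy)
  rw [h1.deriv_eq, deriv_const]

theorem nsq_pos {f : ℝ → E} (hf : IsTest f) (h : ¬ Van f) : 0 < nsq f := by
  refine lt_of_le_of_ne (nsq_nonneg f) fun h0 => h ?_
  have h1 : ∫ x in Ioi (0 : ℝ), ‖f x‖ ^ 2 = 0 := h0.symm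
  rw [integral_eq_zero_iff_of_nonneg (fun _ => sq_nonneg _) (int_nsq hf)] at h1
  have h2 := Measure.eqOn_open_of_ae_eq h1 isOpen_Ioi
    ((t_cont hf).norm.pow 2).continuousOn continuousOn_const
  have h3 : ∀ x : ℝ, 0 < x → f x = 0 := by
    intro x hx
    have h4 : ‖f x‖ ^ 2 = 0 := h2 hx
    exact norm_eq_zero.1 (pow_eq_zero_iff two_ne_zero |>.1 h4)
  have h5 : IsClosed {x : ℝ | f x = 0} := isClosed_eq (t_cont hf) continuous_const
  have h6 : closure (Ioi (0 : ℝ)) ⊆ {x : ℝ | f x = 0} := h5.closure_subset_iff.2 fun x hx => h3 x hx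
  rw [closure_Ioi] at h6
  exact fun x hx => h6 hx

theorem van_gram {f : ℝ → E} (hf : Van f) (g : ℝ → E) : gram f g = 0 := by
  unfold gram
  refine setIntegral_eq_zero_of_forall_eq_zero fun x hx => ?_
  rw [hf x (le_of_lt hx), inner_zero_left]

theorem van_bform {f : ℝ → E} (hf : Van f) (g : ℝ → E) (κ : ℝ) (S : E →L[ℝ] E)
    (W : ℝ → E →L[ℝ] E) : bform κ S W f g = 0 := by
  unfold bform
  have h1 : ∫ x in Ioi (0 : ℝ), inner ℝ (deriv f x) (deriv g x) = 0 := by
    refine setIntegral_eq_zero_of_forall_eq_zero fun x hx => ?_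
    rw [van_deriv hf hx, inner_zero_left]
  have h2 : ∫ x in Ioi (0 : ℝ), x * inner ℝ (f x) (g x) = 0 := by
    refine setIntegral_eq_zero_of_forall_eq_zero fun x hx => ?_
    rw [hf x (le_of_lt hx), inner_zero_left, mul_zero]
  have h3 : ∫ x in Ioi (0 : ℝ), (inner ℝ (deriv f x) (W x (g x)) +
      inner ℝ (deriv g x) (W x (f x))) = 0 := by
    refine setIntegral_eq_zero_of_forall_eq_zero fun x hx => ?_
    rw [van_deriv hf hx, hf x (le_of_lt hx), inner_zero_left, map_zero, inner_zero_right,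
      add_zero]
  rw [h1, h2, h3, hf 0 le_rfl, map_zero, inner_zero_left]
  ring

theorem Bil.sub_smul {b b' : (ℝ → E) → (ℝ → E) → ℝ} (hb : Bil b) (hb' : Bil b') (s : ℝ) :
    Bil fun f g => b f g - s * b' f g where
  symm f g := by
    show b f g - s * b' f g = b g f - s * b' g f
    rw [hb.symm, hb'.symm]
  add f g h hf hg hh := by
    show b (f + g) h - s * b' (f + g) h = (b f h - s * b' f h) + (b g h - s * b' g h)
    rw [hb.add f g h hf hg hh, hb'.add f g h hf hg hh]
    ring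
  smul c f g hf hg := by
    show b (c • f) g - s * b' (c • f) g = c * (b f g - s * b' f g)
    rw [hb.smul c f g hf hg, hb'.smul c f g hf hg]
    ring

theorem mmset_bdd {κ C : ℝ} {S : E →L[ℝ] E} {W : ℝ → E →L[ℝ] E} (hκ : 0 < κ) (hLB : LB κ C S W)
    (k : ℕ) {s : ℝ} (hs : s ∈ mmset (tst E) (form κ S W) nsq k) : -C ≤ s := by
  obtain ⟨φ, h1, h2⟩ := hs
  have hc : (fun _ => 1 : Fin (k + 1) → ℝ) ≠ 0 := fun h => by
    have := congrFun h 0
    exact one_ne_zero this
  obtain ⟨h3, h4⟩ := h2 _ hc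
  have h5 := hLB _ (t_comb h1 fun _ => (1 : ℝ))
  have h6 := dsq_nonneg (∑ i, (1 : ℝ) • φ i)
  have h7 := mul_nonneg hκ.le (xsq_nonneg (∑ i, (1 : ℝ) • φ i))
  have h8 : -C * nsq (∑ i, (1 : ℝ) • φ i) ≤ s * nsq (∑ i, (1 : ℝ) • φ i) := by linarith
  exact le_of_mul_le_mul_right h8 h3

theorem mmset_mono {X : Type} [AddCommGroup X] [Module ℝ X] (U : Submodule ℝ X) (q n : X → ℝ)
    {k k' : ℕ} (h : k ≤ k') : mmset U q n k' ⊆ mmset U q n k := by
  rintro s ⟨φ, h1, h2⟩
  have hk : k + 1 ≤ k' + 1 := by omega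
  refine ⟨fun i => φ (Fin.castLE hk i), fun i => h1 _, fun c hc => ?_⟩
  let c' : Fin (k' + 1) → ℝ := fun j => if h : (j : ℕ) < k + 1 then c ⟨j, h⟩ else 0
  have hc' : ∀ i, c' (Fin.castLE hk i) = c i := by
    intro i
    show (if h : ((Fin.castLE hk i : Fin (k' + 1)) : ℕ) < k + 1 then c ⟨_, h⟩ else 0) = c i
    rw [dif_pos (show ((Fin.castLE hk i : Fin (k' + 1)) : ℕ) < k + 1 from i.2)]
    rfl
  have hsum : ∑ i, c i • φ (Fin.castLE hk i) = ∑ j, c' j • φ j := by
    symm
    have h3 : ∑ j, c' j • φ j = ∑ j ∈ Finset.univ.map (Fin.castLEEmb hk), c' j • φ j := by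
      symm
      refine Finset.sum_subset (Finset.subset_univ _) fun j _ hj => ?_
      have h4 : ¬ (j : ℕ) < k + 1 := by
        intro h5
        apply hj
        rw [Finset.mem_map]
        exact ⟨⟨j, h5⟩, Finset.mem_univ _, rfl⟩
      show (if h : (j : ℕ) < k + 1 then c ⟨j, h⟩ else 0) • φ j = 0
      rw [dif_neg h4, zero_smul]
    rw [h3, Finset.sum_map]
    exact Finset.sum_congr rfl fun i _ => by
      show c' (Fin.castLE hk i) • φ (Fin.castLE hk i) = _
      rw [hc']
  rw [hsum]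
  refine h2 c' fun h3 => hc (funext fun i => ?_)
  rw [← hc' i, h3]
  rfl

end real

section fpart

variable {F : Type} [NormedDivisionRing F] [StarRing F] [InnerProductSpace ℝ F]
  [IsScalarTower ℝ F F] [SMulCommClass ℝ F F] [FiniteDimensional ℝ F] {r : ℕ}

/-- right multiplication as a continuous linear map -/
noncomputable def rL (c : F) : VF F r →L[ℝ] VF F r :=
  LinearMap.toContinuousLinearMap
    { toFun := fun v => rmul v c
      map_add' := fun v w => smul_add (MulOpposite.op c) v w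
      map_smul' := fun a v => (smul_comm a (MulOpposite.op c) v).symm }

theorem rL_apply (c : F) (v : VF F r) : rL c v = rmul v c := rfl

theorem t_rm {f : ℝ → VF F r} (hf : IsTest f) (c : F) : IsTest (fun x => rmul (f x) c) :=
  ⟨(rL c).contDiff.comp hf.1, hf.2.comp_left (map_zero (rL c))⟩

theorem d_rm {f : ℝ → VF F r} (hf : IsTest f) (c : F) (x : ℝ) :
    deriv (fun x => rmul (f x) c) x = rmul (deriv f x) c :=
  ((rL c).hasFDerivAt.comp_hasDerivAt x (t_has hf x)).deriv

variable (F r) in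
/-- the test functions as a space over the opposite algebra -/
noncomputable def tD : Submodule Fᵐᵒᵖ (ℝ → VF F r) where
  carrier := {f | IsTest f}
  add_mem' := fun {_ _} hf hg => t_add hf hg
  zero_mem' := t_zero'
  smul_mem' := fun c _ hf => t_rm hf c.unop

theorem tD_mem {f : ℝ → VF F r} : f ∈ tD F r ↔ IsTest f := Iff.rfl

theorem inner_rm (hF : IsRCH F) (v w : VF F r) (c : F) :
    inner ℝ (rmul v c) (rmul w c) = ‖c‖ ^ 2 * inner ℝ v w := by
  rw [PiLp.inner_apply, PiLp.inner_apply, Finset.mul_sum]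
  exact Finset.sum_congr rfl fun i _ => hF.inner_right _ _ _

theorem gram_rm (hF : IsRCH F) (f g : ℝ → VF F r) (c : F) :
    gram (fun x => rmul (f x) c) (fun x => rmul (g x) c) = ‖c‖ ^ 2 * gram f g := by
  unfold gram
  rw [← integral_const_mul]
  exact integral_congr_ae (Eventually.of_forall fun x => inner_rm hF _ _ _)

theorem bform_rm (hF : IsRCH F) {κ : ℝ} {S : VF F r →L[ℝ] VF F r} {W : ℝ → VF F r →L[ℝ] VF F r}
    (hS : ∀ v c, S (rmul v c) = rmul (S v) c) (hW : ∀ x v c, W x (rmul v c) = rmul (W x v) c)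
    {f g : ℝ → VF F r} (hf : IsTest f) (hg : IsTest g) (c : F) :
    bform κ S W (fun x => rmul (f x) c) (fun x => rmul (g x) c) = ‖c‖ ^ 2 * bform κ S W f g := by
  unfold bform
  have h1 : ∫ x in Ioi (0 : ℝ), inner ℝ (deriv (fun x => rmul (f x) c) x)
      (deriv (fun x => rmul (g x) c) x) =
      ‖c‖ ^ 2 * ∫ x in Ioi (0 : ℝ), inner ℝ (deriv f x) (deriv g x) := by
    rw [← integral_const_mul]
    refine integral_congr_ae (Eventually.of_forall fun x => ?_)
    beta_reduce
    rw [d_rm hf, d_rm hg, inner_rm hF]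
  have h2 : ∫ x in Ioi (0 : ℝ), x * inner ℝ (rmul (f x) c) (rmul (g x) c) =
      ‖c‖ ^ 2 * ∫ x in Ioi (0 : ℝ), x * inner ℝ (f x) (g x) := by
    rw [← integral_const_mul]
    refine integral_congr_ae (Eventually.of_forall fun x => ?_)
    beta_reduce
    rw [inner_rm hF]
    ring
  have h3 : ∫ x in Ioi (0 : ℝ), (inner ℝ (deriv (fun x => rmul (f x) c) x)
      (W x (rmul (g x) c)) + inner ℝ (deriv (fun x => rmul (g x) c) x) (W x (rmul (f x) c))) =
      ‖c‖ ^ 2 * ∫ x in Ioi (0 : ℝ), (inner ℝ (deriv f x) (W x (g x)) +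
        inner ℝ (deriv g x) (W x (f x))) := by
    rw [← integral_const_mul]
    refine integral_congr_ae (Eventually.of_forall fun x => ?_)
    beta_reduce
    rw [d_rm hf, d_rm hg, hW, hW, inner_rm hF, inner_rm hF]
    ring
  have h4 : inner ℝ (S (rmul (f 0) c)) (rmul (g 0) c) = ‖c‖ ^ 2 * inner ℝ (S (f 0)) (g 0) := by
    rw [hS, inner_rm hF]
  rw [h1, h2, h3, h4]
  ring

/-- the bilinear map of a bilinear form on test functions -/
noncomputable def bX (b : (ℝ → VF F r) → (ℝ → VF F r) → ℝ) (hb : Bil b) :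
    tD F r →ₗ[ℝ] tD F r →ₗ[ℝ] ℝ :=
  LinearMap.mk₂ ℝ (fun f g => b f.1 g.1) (fun f g h => hb.add _ _ _ f.2 g.2 h.2)
    (fun c f g => hb.smul c _ _ f.2 g.2) (fun h f g => hb.add_right f.2 g.2 h.2)
    (fun c f g => hb.smul_right c g.2 f.2)

theorem bX_apply (b : (ℝ → VF F r) → (ℝ → VF F r) → ℝ) (hb : Bil b) (f g : tD F r) :
    bX b hb f g = b f.1 g.1 := rfl

variable (F r) in
/-- the test functions which vanish on `[0, ∞)` -/
noncomputable def KK : Submodule Fᵐᵒᵖ (tD F r) where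
  carrier := {f | Van f.1}
  add_mem' := fun {f g} hf hg x hx => by
    show f.1 x + g.1 x = 0
    rw [hf x hx, hg x hx, add_zero]
  zero_mem' := fun _ _ => rfl
  smul_mem' := fun c f hf x hx => by
    show c • f.1 x = 0
    rw [hf x hx, smul_zero]

theorem KK_mem {f : tD F r} : f ∈ KK F r ↔ Van f.1 := Iff.rfl

theorem fcomb_eq {k : ℕ} (φ : Fin (k + 1) → ℝ → VF F r) (c : Fin (k + 1) → F) :
    (fun x => ∑ i, rmul (φ i x) (c i)) = ∑ i, MulOpposite.op (c i) • φ i := by
  funext x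
  rw [Finset.sum_apply]
  rfl

theorem mm_sub (hF : IsRCH F) {κ : ℝ} {S : VF F r →L[ℝ] VF F r} {W : ℝ → VF F r →L[ℝ] VF F r}
    (hSs : Sym S) (hWg : GoodW W)
    (hS : ∀ v c, S (rmul v c) = rmul (S v) c) (hW : ∀ x v c, W x (rmul v c) = rmul (W x v) c)
    {k : ℕ} {s : ℝ}
    (hs : s ∈ mmset (tst (VF F r)) (form κ S W) nsq (finrank ℝ F * k)) :
    s ∈ mmF (form κ S W) k := by
  obtain ⟨ψ, hψt, hψ⟩ := hs
  have hb : Bil fun f g : ℝ → VF F r => bform κ S W f g - s * gram f g :=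
    Bil.sub_smul (bil_form κ hSs hWg) bil_gram s
  have hfin : finrank ℝ Fᵐᵒᵖ = finrank ℝ F :=
    (MulOpposite.opLinearEquiv ℝ : F ≃ₗ[ℝ] Fᵐᵒᵖ).finrank_eq.symm
  have hcoe : ∀ c : Fin (finrank ℝ F * k + 1) → ℝ,
      ((∑ i, c i • (⟨ψ i, hψt i⟩ : tD F r) : tD F r) : ℝ → VF F r) = ∑ i, c i • ψ i := by
    intro c
    rw [Submodule.coe_sum]
    rfl
  obtain ⟨φ, hφ⟩ := lemB (D := Fᵐᵒᵖ) (V := tD F r) (bX _ hb) (fun f g => hb.symm _ _)
    (fun c => ‖c.unop‖ ^ 2)
    (fun c f g => by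
      show bform κ S W (fun x => rmul (f.1 x) c.unop) (fun x => rmul (g.1 x) c.unop) -
        s * gram (fun x => rmul (f.1 x) c.unop) (fun x => rmul (g.1 x) c.unop) =
        ‖c.unop‖ ^ 2 * (bform κ S W f.1 g.1 - s * gram f.1 g.1)
      rw [bform_rm hF hS hW f.2 g.2, gram_rm hF]
      ring)
    (fun c hc => by
      have : c.unop ≠ 0 := fun h => hc (MulOpposite.unop_injective (by rw [h]; rfl))
      positivity)
    (KK F r)
    (fun f hf g => by
      show bform κ S W f.1 g.1 - s * gram f.1 g.1 = 0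
      rw [van_bform hf, van_gram hf]
      ring)
    (finrank ℝ F * k + 1) k (by rw [hfin]; exact Nat.lt_succ_self _)
    (fun i => ⟨ψ i, hψt i⟩)
    (fun c hc => by
      obtain ⟨h1, h2⟩ := hψ c hc
      refine ⟨fun h3 => ?_, ?_⟩
      · have h4 := van_nsq (KK_mem.1 h3)
        rw [hcoe] at h4
        linarith
      · rw [bX_apply, hcoe, bform_self, gram_self]
        linarith)
  refine ⟨fun i => (φ i).1, fun i => (φ i).2, fun c hc => ?_⟩
  have hc' : (fun i => MulOpposite.op (c i) : Fin (k + 1) → Fᵐᵒᵖ) ≠ 0 := fun h => hc (by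
    funext i
    have := congrFun h i
    exact MulOpposite.op_injective this)
  obtain ⟨h1, h2⟩ := hφ _ hc'
  have h3 : ((∑ i, MulOpposite.op (c i) • φ i : tD F r) : ℝ → VF F r) =
      fun x => ∑ i, rmul ((φ i).1 x) (c i) := by
    rw [fcomb_eq, Submodule.coe_sum]
    rfl
  rw [bX_apply, h3, bform_self, gram_self] at h2
  rw [KK_mem, h3] at h1
  refine ⟨nsq_pos ?_ h1, by linarith⟩
  rw [← h3]
  exact (∑ i, MulOpposite.op (c i) • φ i : tD F r).2

theorem rm_add (v : VF F r) (a b : F) : rmul v (a + b) = rmul v a + rmul v b :=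
  add_smul (MulOpposite.op a) (MulOpposite.op b) v

theorem rm_smul (v : VF F r) (t : ℝ) (a : F) : rmul v (t • a) = t • rmul v a :=
  smul_assoc t (MulOpposite.op a) v

theorem rm_zero (v : VF F r) : rmul v (0 : F) = 0 := zero_smul Fᵐᵒᵖ v

theorem rm_sum {ι : Type} (t : Finset ι) (v : VF F r) (a : ι → F) :
    rmul v (∑ l ∈ t, a l) = ∑ l ∈ t, rmul v (a l) := by
  classical
  induction t using Finset.induction_on with
  | empty => rw [Finset.sum_empty, Finset.sum_empty, rm_zero]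
  | insert x t hx ih => rw [Finset.sum_insert hx, Finset.sum_insert hx, rm_add, ih]

theorem mm_sup {q : (ℝ → VF F r) → ℝ} {k i : ℕ} (hi : i < finrank ℝ F) {s : ℝ}
    (hs : s ∈ mmF q k) : s ∈ mmset (tst (VF F r)) q nsq (finrank ℝ F * k + i) := by
  obtain ⟨φ, hφt, hφ⟩ := hs
  let b := Module.finBasis ℝ F
  have hle : finrank ℝ F * k + i + 1 ≤ (k + 1) * finrank ℝ F := by
    rw [add_mul, one_mul, mul_comm k]
    omega
  let ι : Fin (finrank ℝ F * k + i + 1) → Fin (k + 1) × Fin (finrank ℝ F) := fun l =>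
    finProdFinEquiv.symm (Fin.castLE hle l)
  have hι : Function.Injective ι := finProdFinEquiv.symm.injective.comp (Fin.castLE_injective hle)
  refine ⟨fun l x => rmul (φ (ι l).1 x) (b (ι l).2), fun l => t_rm (hφt _) _, fun c hc => ?_⟩
  let a : Fin (k + 1) → F := fun j => ∑ l, if (ι l).1 = j then c l • b (ι l).2 else 0
  have hsum : (∑ l, c l • (fun x => rmul (φ (ι l).1 x) (b (ι l).2) : ℝ → VF F r)) =
      fun x => ∑ j, rmul (φ j x) (a j) := by
    funext x
    rw [Finset.sum_apply]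
    have h1 : ∀ j, rmul (φ j x) (a j) = ∑ l, if (ι l).1 = j
        then c l • rmul (φ j x) (b (ι l).2) else 0 := by
      intro j
      rw [rm_sum]
      refine Finset.sum_congr rfl fun l _ => ?_
      split_ifs
      · rw [rm_smul]
      · rw [rm_zero]
    simp only [h1]
    rw [Finset.sum_comm]
    refine Finset.sum_congr rfl fun l _ => ?_
    rw [Finset.sum_ite_eq]
    rw [if_pos (Finset.mem_univ _)]
    rfl
  rw [hsum]
  refine hφ a fun h => hc (funext fun l => ?_)
  have h1 : b.repr (a (ι l).1) (ι l).2 = c l := by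
    show b.repr (∑ l', if (ι l').1 = (ι l).1 then c l' • b (ι l').2 else 0) (ι l).2 = c l
    rw [map_sum, Finsupp.finsetSum_apply, Finset.sum_eq_single l]
    · rw [if_pos rfl, map_smul, Basis.repr_self, Finsupp.smul_apply, Finsupp.single_eq_same,
        smul_eq_mul, mul_one]
    · intro l' _ hl'
      split_ifs with h2
      · rw [map_smul, Basis.repr_self, Finsupp.smul_apply, Finsupp.single_apply, if_neg, smul_zero]
        intro h3
        exact hl' (hι (Prod.ext h2 h3))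
      · rw [map_zero]
        rfl
    · intro h2
      exact absurd (Finset.mem_univ _) h2
  rw [← h1, h]
  simp

/-- FM -/
theorem fm : S_FM := by
  intro F _ _ _ _ _ _ hF r β hβ κ C S W hκ hSs hWg hLB hS hW hne k
  subst hβ
  have hsub : ∀ i, mmset (tst (VF F r)) (form κ S W) nsq (finrank ℝ F * k + i) ⊆
      mmF (form κ S W) k := fun i s hs =>
    mm_sub hF hSs hWg hS hW (mmset_mono _ _ _ (Nat.le_add_right _ _) hs)
  have hneF : (mmF (form κ S W) k).Nonempty := (hne (finrank ℝ F * k + 0)).mono (hsub 0)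
  have hpos : 0 < finrank ℝ F := Module.finrank_pos
  have hbddR : ∀ m, BddBelow (mmset (tst (VF F r)) (form κ S W) nsq m) := fun m =>
    ⟨-C, fun s hs => mmset_bdd hκ hLB m hs⟩
  have hbdd : BddBelow (mmF (form κ S W) k) := ⟨-C, fun s hs =>
    mmset_bdd hκ hLB _ (mm_sup hpos hs)⟩
  refine ⟨hneF, hbdd, fun i hi => le_antisymm ?_ ?_⟩
  · exact csInf_le_csInf (hbddR _) hneF fun s hs => mm_sup hi hs
  · exact csInf_le_csInf hbdd (hne _) (hsub i)

end fpart

end Pool.Agent.Y71.SA.FM
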