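import Pool.Agent.Y71.SA.Int

/-!
Project Y782-SA, job STEP
-/

set_option autoImplicit false

open MeasureTheory ProbabilityTheory Set Filter Topology
open scoped NNReal ENNReal

namespace Pool.Agent.Y71.SA

open Pool.Agent.Y782.SA

variable {E : Type} [NormedAddCommGroup E] [InnerProductSpace ℝ E]

theorem sym_zero : Sym (0 : E →L[ℝ] E) := fun u v => by
  rw [zero_apply, zero_apply, inner_zero_left,
    inner_zero_right]

theorem sym_add {A B : E →L[ℝ] E} (hA : Sym A) (hB : Sym B) : Sym (A + B) := fun u v => by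
  rw [add_apply, add_apply, inner_add_left,
    inner_add_right, hA, hB]

theorem sym_smul (c : ℝ) {A : E →L[ℝ] E} (hA : Sym A) : Sym (c • A) := fun u v => by
  rw [smul_apply, smul_apply, real_inner_smul_left,
    real_inner_smul_right, hA]

theorem good_zero : GoodW (fun _ => (0 : E →L[ℝ] E)) where
  meas := stronglyMeasurable_const
  bdd := fun _ => ⟨0, fun _ _ => by rw [norm_zero]⟩
  sym := fun _ => sym_zero
  zero := rfl

theorem good_jump {W : ℝ → E →L[ℝ] E} {B : E →L[ℝ] E} {t : ℝ} (hW : GoodW W) (hB : Sym B)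
    (ht : 0 < t) : GoodW (fun x => W x + if t ≤ x then B else 0) where
  meas := hW.meas.add (StronglyMeasurable.ite measurableSet_Ici stronglyMeasurable_const
    stronglyMeasurable_const)
  bdd := fun L => by
    obtain ⟨C, hC⟩ := hW.bdd L
    refine ⟨C + ‖B‖, fun x hx => ?_⟩
    refine (norm_add_le _ _).trans (add_le_add (hC x hx) ?_)
    split_ifs
    · exact le_rfl
    · rw [norm_zero]
      exact norm_nonneg _
  sym := fun x => by
    refine sym_add (hW.sym x) ?_
    split_ifs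
    · exact hB
    · exact sym_zero
  zero := by
    show W 0 + (if t ≤ 0 then B else 0) = 0
    rw [hW.zero, if_neg (not_le.2 ht), add_zero]

theorem jump_int {f g : ℝ → E} (hf : IsTest f) (hg : IsTest g) {B : E →L[ℝ] E} (hB : Sym B)
    {t : ℝ} (ht : 0 < t) :
    ∫ x in Ioi (0 : ℝ), (if t ≤ x then inner ℝ (deriv f x) (B (g x)) +
      inner ℝ (deriv g x) (B (f x)) else 0) = - inner ℝ (B (f t)) (g t) := by
  have hBm : StronglyMeasurable (fun _ : ℝ => B) := stronglyMeasurable_const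
  have hBb : ∀ L : ℝ, ∃ C : ℝ, ∀ x ∈ Icc 0 L, ‖(fun _ : ℝ => B) x‖ ≤ C := fun _ =>
    ⟨‖B‖, fun _ _ => le_rfl⟩
  have hi : IntegrableOn (fun x => inner ℝ (deriv f x) (B (g x)) +
      inner ℝ (deriv g x) (B (f x))) (Ioi 0) :=
    (int_W' hBm hBb hf hg).add (int_W' hBm hBb hg hf)
  have h1 : ∫ x in Ioi (0 : ℝ), (if t ≤ x then inner ℝ (deriv f x) (B (g x)) +
      inner ℝ (deriv g x) (B (f x)) else 0) = ∫ x in Ioi (0 : ℝ), (Ici t).indicator
      (fun x => inner ℝ (deriv f x) (B (g x)) + inner ℝ (deriv g x) (B (f x))) x := by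
    refine integral_congr_ae (Eventually.of_forall fun x => ?_)
    beta_reduce
    by_cases h : t ≤ x
    · rw [if_pos h, indicator_of_mem (show x ∈ Ici t from h)]
    · rw [if_neg h, indicator_of_notMem (show x ∉ Ici t from h)]
  have h2 : Ioi (0 : ℝ) ∩ Ici t = Ici t :=
    inter_eq_self_of_subset_right fun x hx => lt_of_lt_of_le ht hx
  rw [h1, setIntegral_indicator measurableSet_Ici, h2, integral_Ici_eq_integral_Ioi]
  have hz : Tendsto (fun x => inner ℝ (B (f x)) (g x)) atTop (𝓝 0) := by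
    obtain ⟨R, -, hR⟩ := t_zero hf
    refine tendsto_const_nhds.congr' ?_
    filter_upwards [eventually_ge_atTop R] with x hx
    rw [(hR x hx).1, map_zero, inner_zero_left]
  have h3 := integral_Ioi_of_hasDerivAt_of_tendsto' (a := t) (m := 0)
    (f := fun x => inner ℝ (B (f x)) (g x))
    (f' := fun x => inner ℝ (deriv f x) (B (g x)) + inner ℝ (deriv g x) (B (f x)))
    (fun x _ => ?_) (hi.mono_set (Ioi_subset_Ioi ht.le)) hz
  · rw [h3, zero_sub]
  · have h4 : HasDerivAt (fun x => B (f x)) (B (deriv f x)) x :=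
      B.hasFDerivAt.comp_hasDerivAt x (t_has hf x)
    have h5 := h4.inner ℝ (t_has hg x)
    refine h5.congr_deriv ?_
    rw [hB (deriv f x), real_inner_comm (deriv g x), add_comm]

theorem bform_jump (κ : ℝ) (S : E →L[ℝ] E) {W : ℝ → E →L[ℝ] E} {B : E →L[ℝ] E} {t : ℝ}
    (hW : GoodW W) (hB : Sym B) (ht : 0 < t) {f g : ℝ → E} (hf : IsTest f) (hg : IsTest g) :
    bform κ S (fun x => W x + if t ≤ x then B else 0) f g =
        bform κ S W f g + inner ℝ (B (f t)) (g t) := by
  have h1 := jump_int hf hg hB ht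
  have hBm : StronglyMeasurable (fun x : ℝ => if t ≤ x then B else 0) :=
    StronglyMeasurable.ite measurableSet_Ici stronglyMeasurable_const stronglyMeasurable_const
  have hBb : ∀ L : ℝ, ∃ C : ℝ, ∀ x ∈ Icc 0 L, ‖(fun x : ℝ => if t ≤ x then B else 0) x‖ ≤ C :=
    fun _ => ⟨‖B‖, fun x _ => by
      beta_reduce
      split_ifs
      · exact le_rfl
      · rw [norm_zero]
        exact norm_nonneg _⟩
  have hi1 : IntegrableOn (fun x => inner ℝ (deriv f x) (W x (g x)) +
      inner ℝ (deriv g x) (W x (f x))) (Ioi 0) := (int_W hW hf hg).add (int_W hW hg hf)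
  have h3 : ∀ x : ℝ, (if t ≤ x then inner ℝ (deriv f x) (B (g x)) +
      inner ℝ (deriv g x) (B (f x)) else 0) =
      inner ℝ (deriv f x) ((if t ≤ x then B else 0) (g x)) +
        inner ℝ (deriv g x) ((if t ≤ x then B else 0) (f x)) := by
    intro x
    split_ifs
    · rfl
    · rw [zero_apply, zero_apply, inner_zero_right,
        inner_zero_right, add_zero]
  have hi2 : IntegrableOn (fun x => if t ≤ x then inner ℝ (deriv f x) (B (g x)) +
      inner ℝ (deriv g x) (B (f x)) else 0) (Ioi 0) := by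
    simp only [h3]
    exact (int_W' hBm hBb hf hg).add (int_W' hBm hBb hg hf)
  have h2 : ∫ x in Ioi (0 : ℝ), (inner ℝ (deriv f x) ((W x + if t ≤ x then B else 0) (g x)) +
      inner ℝ (deriv g x) ((W x + if t ≤ x then B else 0) (f x))) =
      (∫ x in Ioi (0 : ℝ), (inner ℝ (deriv f x) (W x (g x)) + inner ℝ (deriv g x) (W x (f x)))) +
      ∫ x in Ioi (0 : ℝ), (if t ≤ x then inner ℝ (deriv f x) (B (g x)) +
        inner ℝ (deriv g x) (B (f x)) else 0) := by
    rw [← integral_add hi1 hi2]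
    refine integral_congr_ae (Eventually.of_forall fun x => ?_)
    beta_reduce
    rw [h3, add_apply, add_apply, inner_add_right,
      inner_add_right]
    ring
  unfold bform
  rw [h2, h1]
  ring

theorem step_fin {ι : Type} [Fintype ι] (A : ι → E →L[ℝ] E) (D n : ℕ) (ξ : Fin n × ι → ℝ)
    (hA : ∀ α, Sym (A α)) (hD : 1 ≤ D) (s : Finset (Fin n × ι)) :
    GoodW (fun x => ∑ p ∈ s, if ((p.1 : ℕ) + 1 : ℝ) / D ≤ x then (ξ p / Real.sqrt D) • A p.2
      else 0) ∧ ∀ (κ : ℝ) (S : E →L[ℝ] E) (f g : ℝ → E), IsTest f → IsTest g →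
      bform κ S (fun x => ∑ p ∈ s, if ((p.1 : ℕ) + 1 : ℝ) / D ≤ x
        then (ξ p / Real.sqrt D) • A p.2 else 0) f g = bform κ S (fun _ => 0) f g +
        ∑ p ∈ s, ξ p / Real.sqrt D * inner ℝ (A p.2 (f (((p.1 : ℕ) + 1 : ℝ) / D)))
          (g (((p.1 : ℕ) + 1 : ℝ) / D)) := by
  classical
  induction s using Finset.induction_on with
  | empty =>
    simp only [Finset.sum_empty, add_zero]
    exact ⟨good_zero, fun _ _ _ _ _ _ => trivial⟩
  | insert a s ha ih =>
    obtain ⟨ih1, ih2⟩ := ih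
    have ht : (0 : ℝ) < ((a.1 : ℕ) + 1 : ℝ) / D := by
      have : (0 : ℝ) < D := by exact_mod_cast hD
      positivity
    have hB : Sym ((ξ a / Real.sqrt D) • A a.2) := sym_smul _ (hA _)
    have h1 : (fun x => ∑ p ∈ insert a s, if ((p.1 : ℕ) + 1 : ℝ) / D ≤ x
        then (ξ p / Real.sqrt D) • A p.2 else (0 : E →L[ℝ] E)) = fun x =>
        (∑ p ∈ s, if ((p.1 : ℕ) + 1 : ℝ) / D ≤ x then (ξ p / Real.sqrt D) • A p.2 else 0) +
        if ((a.1 : ℕ) + 1 : ℝ) / D ≤ x then (ξ a / Real.sqrt D) • A a.2 else 0 := by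
      funext x
      rw [Finset.sum_insert ha, add_comm]
    rw [h1]
    refine ⟨good_jump ih1 hB ht, fun κ S f g hf hg => ?_⟩
    rw [bform_jump κ S ih1 hB ht hf hg, ih2 κ S f g hf hg, Finset.sum_insert ha,
      smul_apply, real_inner_smul_left]
    ring

/-- STEP -/
theorem step : S_STEP := by
  intro E _ _ _
  refine ⟨fun κ S W B t hW hB ht => ⟨good_jump hW hB ht, fun f g hf hg =>
    bform_jump κ S hW hB ht hf hg⟩, fun ι _ A D n ξ hA hD => ?_⟩
  exact step_fin A D n ξ hA hD Finset.univ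

end Pool.Agent.Y71.SA
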